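import Pool.Agent.R824.TT.Transl

/-!
The set of acceptable formulas (truth-trees with parity, recursive rule included) has the
omissibility property.
-/

set_option autoImplicit false

namespace Pool.Agent.Results.MP_3f42a7_lc.Omissibility

open Pool.Agent.R824.TT

/-- The omissibility property of a set `S` of formulas: for all `α, β, γ` such that `β` shares no
sentence letter with `α` and none with `γ`, if `(α ∧ β) → γ` or `α → (β ∨ γ)` is in `S` then
`α → γ` is in `S`. -/
def Omissibility (S : Set Fml) : Prop :=
  ∀ α β γ : Fml, Disjoint β.letters α.letters → Disjoint β.letters γ.letters →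
    (Fml.imp (.conj α β) γ ∈ S ∨ Fml.imp α (.disj β γ) ∈ S) → Fml.imp α γ ∈ S

theorem omit_conj {α β γ : Fml} (h1 : Disjoint β.letters α.letters)
    (h2 : Disjoint β.letters γ.letters) (h : Fml.imp (.conj α β) γ ∈ Acceptable) :
    Fml.imp α γ ∈ Acceptable := by
  classical
  let v : ℕ → Bool → Fml := fun p j =>
    if p ∈ β.letters then (if j then .neg (kk α) else kk α) else .var p
  have hv : ∀ p, Le (v p true) (v p false) := by
    intro p
    by_cases hp : p ∈ β.letters
    · simp only [v, if_pos hp, if_true]
      exact neg_kk_le α
    · simp only [v, if_neg hp]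
      exact .refl _
  have hT := T_mem hv h
  have h3 : Le (.conj (T v α false) (T v β false)) (T v γ false) := detach hT conj_le_left
  have hα : Le α (T v α false) := (T_id α (fun p hp j => by
    have : p ∉ β.letters := fun hp' => Set.disjoint_left.mp h1 hp' hp
    simp only [v, if_neg this]) false).1
  have hγ : Le (T v γ false) γ := (T_id γ (fun p hp j => by
    have : p ∉ β.letters := fun hp' => Set.disjoint_left.mp h2 hp' hp
    simp only [v, if_neg this]) false).2
  have hβ : Le (kk α) (T v β false) := (T_kk (kk_mem α) (kk_idem α) β (fun p hp => by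
    simp [v, if_pos hp])).1.1
  exact ((le_conj hα ((le_kk α).trans hβ)).trans h3).trans hγ

/-- **Omissibility.** The set `A` of acceptable formulas has the omissibility property. -/
theorem result : Omissibility Acceptable := by
  intro α β γ h1 h2 h
  rcases h with h | h
  · exact omit_conj h1 h2 h
  · have h3 : Le (.conj (.neg γ) (.neg β)) (.neg α) := deMorgan.trans (contra h)
    have h4 : Le (.neg γ) (.neg α) := omit_conj (β := .neg β) (α := .neg γ) (γ := .neg α) h2 h1 h3
    exact (le_dneg.trans (contra h4)).trans dneg_le

end Pool.Agent.Results.MP_3f42a7_lc.Omissibility
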